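import Mathlib

/-! The word metric of a free group is a tree metric. -/

set_option autoImplicit false

namespace Pool.Agent.MP_3ce0a0_al.Q2T4M

open FreeGroup

variable {α : Type*} [DecidableEq α]

/-- The word metric. -/
def dn (x y : FreeGroup α) : ℕ := norm (x⁻¹ * y)

theorem dn_comm (x y : FreeGroup α) : dn x y = dn y x := by
  rw [dn, dn, ← norm_inv_eq, mul_inv_rev, inv_inv]

@[simp] theorem dn_self (x : FreeGroup α) : dn x x = 0 := by simp [dn]

theorem dn_eq_zero {x y : FreeGroup α} : dn x y = 0 ↔ x = y := by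
  rw [dn, FreeGroup.norm_eq_zero, inv_mul_eq_one]

theorem dn_tri (x y z : FreeGroup α) : dn x z ≤ dn x y + dn y z := by
  have h : x⁻¹ * z = x⁻¹ * y * (y⁻¹ * z) := by group
  rw [dn, h]
  exact norm_mul_le _ _

@[simp] theorem dn_mul (g x y : FreeGroup α) : dn (g * x) (g * y) = dn x y := by
  have h : (g * x)⁻¹ * (g * y) = x⁻¹ * y := by group
  rw [dn, h, dn]

@[simp] theorem dn_one (x : FreeGroup α) : dn 1 x = norm x := by simp [dn]

@[simp] theorem dn_one' (x : FreeGroup α) : dn x 1 = norm x := by simp [dn]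

@[simp] theorem dn_mul_right (x g : FreeGroup α) : dn x (x * g) = norm g := by simp [dn]

theorem norm_mk_red {l : List (α × Bool)} (h : IsReduced l) : norm (mk l) = l.length := by
  rw [FreeGroup.norm, toWord_mk, h.reduce_eq]

omit [DecidableEq α] in
theorem red_invRev {l : List (α × Bool)} (h : IsReduced l) : IsReduced (invRev l) := by
  classical
  rw [isReduced_iff_reduce_eq, reduce_invRev, h.reduce_eq]

omit [DecidableEq α] in
theorem red_left {l m : List (α × Bool)} (h : IsReduced (l ++ m)) : IsReduced l :=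
  (List.isChain_append.mp h).1

omit [DecidableEq α] in
theorem red_right {l m : List (α × Bool)} (h : IsReduced (l ++ m)) : IsReduced m :=
  (List.isChain_append.mp h).2.1

theorem split_aux : ∀ l m : List (α × Bool), IsReduced l → IsReduced m →
    ∃ p a b, l = p ++ a ∧ m = p ++ b ∧ dn (mk l) (mk m) = a.length + b.length
  | [], m, _, hm => ⟨[], [], m, rfl, rfl, by
      rw [← one_eq_mk, dn_one, norm_mk_red hm]; simp⟩
  | x :: l, [], hl, _ => ⟨[], x :: l, [], rfl, rfl, by
      rw [← one_eq_mk, dn_one', norm_mk_red hl]; simp⟩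
  | x :: l, y :: m, hl, hm => by
    by_cases hxy : x = y
    · subst hxy
      obtain ⟨p, a, b, h1, h2, h3⟩ := split_aux l m (red_right (l := [x]) hl)
        (red_right (l := [x]) hm)
      refine ⟨x :: p, a, b, by rw [h1]; rfl, by rw [h2]; rfl, ?_⟩
      rw [← h3, ← List.singleton_append, ← List.singleton_append (l := m), ← mul_mk, ← mul_mk,
        dn_mul]
    · refine ⟨[], x :: l, y :: m, rfl, rfl, ?_⟩
      have h1 : IsReduced (invRev (x :: l) ++ y :: m) := by
        refine List.isChain_append.mpr ⟨red_invRev hl, hm, ?_⟩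
        intro u hu v hv
        obtain ⟨x1, x2⟩ := x
        obtain ⟨y1, y2⟩ := y
        simp only [invRev, List.map_cons, List.reverse_cons, List.getLast?_concat,
          Option.mem_def, Option.some.injEq, List.head?_cons] at hu hv
        subst hu hv
        rintro rfl
        cases x2 <;> cases y2 <;> simp_all
      rw [dn, inv_mk, mul_mk, norm_mk_red h1, List.length_append, invRev_length]

theorem split (x y : FreeGroup α) : ∃ p a b, x.toWord = p ++ a ∧ y.toWord = p ++ b ∧
    dn x y = a.length + b.length := by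
  have h := split_aux x.toWord y.toWord isReduced_toWord isReduced_toWord
  rwa [mk_toWord, mk_toWord] at h

theorem dn_pre {x : FreeGroup α} {p a : List (α × Bool)} (h : x.toWord = p ++ a) :
    norm (mk p) = p.length ∧ dn (mk p) x = a.length ∧ norm x = p.length + a.length := by
  have hr : IsReduced (p ++ a) := h ▸ isReduced_toWord
  refine ⟨norm_mk_red (red_left hr), ?_, by
    rw [FreeGroup.norm, h, List.length_append]⟩
  have h1 : x = mk p * mk a := by rw [mul_mk, ← h, mk_toWord]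
  rw [h1, dn_mul_right, norm_mk_red (red_right hr)]

theorem four_one (x y z : FreeGroup α) :
    dn x y + norm z ≤ max (dn x z + norm y) (norm x + dn y z) := by
  obtain ⟨p, a, b, h1, h2, h3⟩ := split x z
  obtain ⟨q, c, d, h4, h5, h6⟩ := split y z
  obtain ⟨-, e1, e2⟩ := dn_pre h1
  obtain ⟨-, -, e3⟩ := dn_pre h2
  obtain ⟨-, e4, e5⟩ := dn_pre h4
  obtain ⟨-, -, e6⟩ := dn_pre h5
  rcases List.prefix_or_prefix_of_prefix (⟨b, h2.symm⟩ : p <+: z.toWord) ⟨d, h5.symm⟩ with
    ⟨r, rfl⟩ | ⟨r, rfl⟩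
  · obtain ⟨-, e7, e8⟩ := dn_pre (h4.trans (List.append_assoc _ _ _))
    have := dn_tri x (mk p) y
    rw [dn_comm x (mk p)] at this
    omega
  · obtain ⟨-, e7, e8⟩ := dn_pre (h1.trans (List.append_assoc _ _ _))
    have := dn_tri x (mk q) y
    rw [dn_comm x (mk q)] at this
    omega

/-- The four-point condition. -/
theorem four (x y z w : FreeGroup α) :
    dn x y + dn z w ≤ max (dn x z + dn y w) (dn x w + dn y z) := by
  have h := four_one (w⁻¹ * x) (w⁻¹ * y) (w⁻¹ * z)
  rw [dn_mul, dn_mul, dn_mul] at h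
  rw [dn_comm z w, dn_comm y w, dn_comm x w]
  exact h

/-- `m` lies between `x` and `y`. -/
def Bt (x m y : FreeGroup α) : Prop := dn x m + dn m y = dn x y

theorem Bt.symm {x m y : FreeGroup α} (h : Bt x m y) : Bt y m x := by
  rw [Bt, dn_comm y m, dn_comm m x, dn_comm y x, add_comm]
  exact h

theorem Bt.mul {x m y : FreeGroup α} (h : Bt x m y) (g : FreeGroup α) :
    Bt (g * x) (g * m) (g * y) := by
  rwa [Bt, dn_mul, dn_mul, dn_mul]

theorem bt_of_le {x m y : FreeGroup α} (h : dn x m + dn m y ≤ dn x y) : Bt x m y :=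
  le_antisymm h (dn_tri x m y)

/-- Medians. -/
theorem med (x y z : FreeGroup α) : ∃ m, Bt x m y ∧ Bt y m z ∧ Bt x m z := by
  obtain ⟨p, a, b, h1, h2, h3⟩ := split (x⁻¹ * y) (x⁻¹ * z)
  obtain ⟨e1, e2, e3⟩ := dn_pre h1
  obtain ⟨-, e4, e5⟩ := dn_pre h2
  have k : ∀ w, dn (x * mk p) w = dn (mk p) (x⁻¹ * w) := fun w => by
    rw [← dn_mul x (mk p), mul_inv_cancel_left]
  rw [dn_mul] at h3
  refine ⟨x * mk p, ?_, ?_, ?_⟩
  · rw [Bt, dn_mul_right, k, e1, e2, dn, e3]
  · rw [Bt, dn_comm y, k, k, e2, e4, h3]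
  · rw [Bt, dn_mul_right, k, e1, e4, dn, e5]

theorem Bt.or {x m y : FreeGroup α} (h : Bt x m y) (z : FreeGroup α) : Bt x m z ∨ Bt z m y := by
  have h1 := four x y m z
  rw [Bt] at h
  rw [dn_comm y z, dn_comm y m] at h1
  rcases le_max_iff.mp h1 with h2 | h2
  · refine Or.inr (bt_of_le ?_)
    rw [dn_comm z m]
    omega
  · exact Or.inl (bt_of_le (by omega))

/-- Geodesics. -/
theorem geo (x y : FreeGroup α) : ∃ v : ℕ → FreeGroup α, v 0 = x ∧ v (dn x y) = y ∧
    (∀ i, dn (v i) (v (i + 1)) ≤ 1) ∧ (∀ i, Bt x (v i) y) ∧ ∀ i, i ≤ dn x y → dn x (v i) = i := by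
  have k : ∀ i, dn x (x * mk ((x⁻¹ * y).toWord.take i)) = min i (dn x y) ∧
      Bt x (x * mk ((x⁻¹ * y).toWord.take i)) y := by
    intro i
    obtain ⟨e1, e2, e3⟩ := dn_pre (List.take_append_drop i (x⁻¹ * y).toWord).symm
    refine ⟨by rw [dn_mul_right, e1, List.length_take]; rfl, ?_⟩
    rw [Bt, dn_mul_right, e1, ← dn_mul x⁻¹, inv_mul_cancel_left, e2, dn, e3]
  refine ⟨fun i => x * mk ((x⁻¹ * y).toWord.take i), by simp [← one_eq_mk], ?_, fun i => ?_,
    fun i => (k i).2, fun i hi => by rw [(k i).1, min_eq_left hi]⟩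
  · change x * mk ((x⁻¹ * y).toWord.take (x⁻¹ * y).toWord.length) = y
    rw [List.take_length, mk_toWord, mul_inv_cancel_left]
  · change dn (x * mk _) (x * mk _) ≤ 1
    rw [List.take_add_one, ← mul_mk, ← mul_assoc, dn_mul_right]
    refine norm_mk_le.trans ?_
    cases (x⁻¹ * y).toWord[i]? <;> simp

theorem geo_pt (x y : FreeGroup α) (k : ℕ) (hk : k ≤ dn x y) : ∃ z, dn x z = k ∧ Bt x z y := by
  obtain ⟨v, -, -, -, h1, h2⟩ := geo x y
  exact ⟨v k, h2 k hk, h1 k⟩

theorem norm_eq_one {x : FreeGroup α} : norm x = 1 ↔ ∃ a, x = of a ∨ x = (of a)⁻¹ := by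
  constructor
  · intro h
    obtain ⟨⟨a, b⟩, h1⟩ := List.length_eq_one_iff.mp h
    have h2 : x = mk [(a, b)] := by rw [← h1, mk_toWord]
    cases b
    · exact ⟨a, Or.inr h2⟩
    · exact ⟨a, Or.inl h2⟩
  · rintro ⟨a, rfl | rfl⟩ <;> simp

/-- A path with steps `≤ L` comes `L`-close to every point between its ends. -/
theorem cover (u : ℕ → FreeGroup α) (L : ℕ) (m : FreeGroup α) (n : ℕ)
    (hu : ∀ i, i < n → dn (u i) (u (i + 1)) ≤ L) (h : Bt (u 0) m (u n)) :
    ∃ i, i ≤ n ∧ dn m (u i) ≤ L := by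
  induction n with
  | zero =>
    rw [Bt, dn_self] at h
    exact ⟨0, le_rfl, by omega⟩
  | succ n ih =>
    rcases h.or (u n) with h1 | h1
    · obtain ⟨i, hi, h2⟩ := ih (fun i hi => hu i (by omega)) h1
      exact ⟨i, by omega, h2⟩
    · have := hu n (by omega)
      rw [Bt] at h1
      exact ⟨n + 1, le_rfl, by omega⟩

/-- A point almost between each pair is close to the median. -/
theorem near_med {x y z m w : FreeGroup α} {D : ℕ} (h1 : Bt x m y) (h2 : Bt y m z)
    (h3 : Bt x m z) (k1 : dn x w + dn w y ≤ dn x y + 2 * D) (k2 : dn y w + dn w z ≤ dn y z + 2 * D)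
    (k3 : dn x w + dn w z ≤ dn x z + 2 * D) : dn m w ≤ D := by
  have c := dn_comm (α := α)
  have a1 := h1.or w
  have a2 := h2.or w
  have a3 := h3.or w
  simp only [Bt] at h1 h2 h3 a1 a2 a3
  have := c w y; have := c w z; have := c w m; have := c m y; have := c m z
  have := c w x; have := c m x
  omega

section Hom

variable {β : Type*} [DecidableEq β]

theorem norm_hom_le (f : FreeGroup α →* FreeGroup β) (L : ℕ) (h : ∀ a, norm (f (of a)) ≤ L)
    (x : FreeGroup α) : norm (f x) ≤ L * norm x := by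
  have k : ∀ l : List (α × Bool), norm (f (mk l)) ≤ L * l.length := by
    intro l
    induction l with
    | nil => simp [← one_eq_mk]
    | cons a l ih =>
      rw [← List.singleton_append, ← mul_mk, f.map_mul, List.length_append, mul_add,
        List.length_singleton, mul_one]
      refine (FreeGroup.norm_mul_le _ _).trans (add_le_add ?_ ih)
      obtain ⟨a, b⟩ := a
      cases b
      · have : (mk [(a, false)] : FreeGroup α) = (of a)⁻¹ := rfl
        rw [this, f.map_inv, norm_inv_eq]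
        exact h a
      · exact h a
  have := k x.toWord
  rwa [mk_toWord] at this

theorem exists_lip [Finite α] (f : FreeGroup α →* FreeGroup β) :
    ∃ L : ℕ, ∀ x, norm (f x) ≤ L * norm x := by
  obtain ⟨L, hL⟩ := (Set.finite_range fun a => norm (f (of a))).bddAbove
  exact ⟨L, norm_hom_le f L fun a => hL ⟨a, rfl⟩⟩

omit [DecidableEq α] in
theorem dn_hom (f : FreeGroup α →* FreeGroup β) (x y : FreeGroup α) :
    dn (f x) (f y) = norm (f (x⁻¹ * y)) := by
  rw [dn, f.map_mul, f.map_inv]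

/-- A bi-Lipschitz surjection almost preserves betweenness. -/
theorem qi_bt (f : FreeGroup α → FreeGroup β) (L : ℕ) (hs : Function.Surjective f)
    (h1 : ∀ x y, dn (f x) (f y) ≤ L * dn x y) (h2 : ∀ x y, dn x y ≤ L * dn (f x) (f y))
    {x m y : FreeGroup α} (h : Bt x m y) :
    dn (f x) (f m) + dn (f m) (f y) ≤ dn (f x) (f y) + 2 * (L * L) := by
  obtain ⟨v, v0, vn, vs, vb, -⟩ := geo (f x) (f y)
  choose g hg using hs
  have hgf : ∀ z, g (f z) = z := fun z => by
    have := h2 (g (f z)) z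
    rw [hg, dn_self, mul_zero] at this
    exact dn_eq_zero.mp (Nat.le_zero.mp this)
  obtain ⟨i, -, hi⟩ := cover (fun i => g (v i)) L m (dn (f x) (f y)) (fun i _ => by
    have := h2 (g (v i)) (g (v (i + 1)))
    rw [hg, hg] at this
    exact this.trans (by simpa using Nat.mul_le_mul_left L (vs i))) (by
      simpa only [v0, vn, hgf] using h)
  have h3 := h1 m (g (v i))
  rw [hg] at h3
  have h4 : dn (f m) (v i) ≤ L * L := h3.trans (Nat.mul_le_mul_left L hi)
  have h5 := vb i
  rw [Bt] at h5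
  have h6 := dn_tri (f x) (v i) (f m)
  have h7 := dn_tri (f m) (v i) (f y)
  rw [dn_comm (v i) (f m)] at h6
  omega

/-- A bi-Lipschitz surjection almost preserves medians. -/
theorem qi_med (f : FreeGroup α → FreeGroup β) (L : ℕ) (hs : Function.Surjective f)
    (h1 : ∀ x y, dn (f x) (f y) ≤ L * dn x y) (h2 : ∀ x y, dn x y ≤ L * dn (f x) (f y))
    {x y z m : FreeGroup α} {m' : FreeGroup β} (a1 : Bt x m y) (a2 : Bt y m z) (a3 : Bt x m z)
    (b1 : Bt (f x) m' (f y)) (b2 : Bt (f y) m' (f z)) (b3 : Bt (f x) m' (f z)) :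
    dn m' (f m) ≤ L * L :=
  near_med b1 b2 b3 (qi_bt f L hs h1 h2 a1) (qi_bt f L hs h1 h2 a2) (qi_bt f L hs h1 h2 a3)

/-- Isomorphisms are bi-Lipschitz. -/
theorem exists_bilip [Finite α] [Finite β] (f : FreeGroup α ≃* FreeGroup β) :
    ∃ L : ℕ, (∀ x y, dn (f x) (f y) ≤ L * dn x y) ∧ ∀ x y, dn x y ≤ L * dn (f x) (f y) := by
  obtain ⟨L, hL⟩ := exists_lip f.toMonoidHom
  obtain ⟨M, hM⟩ := exists_lip f.symm.toMonoidHom
  refine ⟨max L M, fun x y => ?_, fun x y => ?_⟩
  · have := hL (x⁻¹ * y)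
    rw [← dn_hom] at this
    exact this.trans (Nat.mul_le_mul_right _ (le_max_left _ _))
  · have := hM ((f x)⁻¹ * f y)
    rw [← dn_hom] at this
    simp only [MulEquiv.toMonoidHom_eq_coe, MonoidHom.coe_coe, MulEquiv.symm_apply_apply] at this
    exact this.trans (Nat.mul_le_mul_right _ (le_max_right _ _))

end Hom

/-- Balls are finite. -/
theorem ball_finite [Finite α] (R : ℕ) : {x : FreeGroup α | norm x ≤ R}.Finite :=
  (List.finite_length_le (α × Bool) R).preimage (f := toWord) toWord_injective.injOn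

end Pool.Agent.MP_3ce0a0_al.Q2T4M
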