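import Pool.Agent.MP_3ce0a0_al.Q2T4M.Tree

/-! The cyclic length in a free group. -/

set_option autoImplicit false

namespace Pool.Agent.MP_3ce0a0_al.Q2T4M

open FreeGroup

section

variable {α : Type*} [DecidableEq α]

/-- The cyclic length. -/
def cl (g : FreeGroup α) : ℕ := norm (g * g) - norm g

theorem cyc_aux (g : FreeGroup α) : ∃ u w : FreeGroup α, g = u * w * u⁻¹ ∧
    ∀ i : ℕ, i ≠ 0 → norm (g ^ i) = 2 * norm u + i * norm w := by
  have hr := isReduced_toWord (x := g)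
  have e := reduceCyclically.conj_conjugator_reduceCyclically g.toWord
  have hr' := e.symm ▸ hr
  refine ⟨mk (reduceCyclically.conjugator g.toWord), mk (reduceCyclically g.toWord), ?_,
    fun i hi => ?_⟩
  · rw [inv_mk, mul_mk, mul_mk, e, mk_toWord]
  · rw [norm_mk_red (red_left (red_left hr')), norm_mk_red (red_right (red_left hr')),
      FreeGroup.norm, toWord_pow, reduceCyclically.reduce_flatten_replicate hr, if_neg hi]
    simp only [List.length_append, invRev_length, List.length_flatten, List.map_replicate,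
      List.sum_replicate, smul_eq_mul]
    omega

theorem cyc (g : FreeGroup α) : ∃ u w : FreeGroup α, g = u * w * u⁻¹ ∧ norm w = cl g ∧
    ∀ i : ℕ, i ≠ 0 → norm (g ^ i) = 2 * norm u + i * cl g := by
  obtain ⟨u, w, h1, h2⟩ := cyc_aux g
  have h3 : norm w = cl g := by
    have a := h2 1 one_ne_zero
    have b := h2 2 two_ne_zero
    rw [pow_one] at a
    rw [pow_two] at b
    rw [cl]
    omega
  exact ⟨u, w, h1, h3, h3 ▸ h2⟩

theorem cl_pos {g : FreeGroup α} (h : g ≠ 1) : 0 < cl g := by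
  obtain ⟨u, w, h1, h2, -⟩ := cyc g
  refine Nat.pos_of_ne_zero fun h0 => h ?_
  rw [h1, FreeGroup.norm_eq_zero.mp (h2.trans h0), mul_one, mul_inv_cancel]

@[simp] theorem cl_one : cl (1 : FreeGroup α) = 0 := by simp [cl]

theorem cl_eq_zero {g : FreeGroup α} : cl g = 0 ↔ g = 1 :=
  ⟨fun h => by_contra fun k => (cl_pos k).ne' h, fun h => h ▸ cl_one⟩

@[simp] theorem cl_inv (g : FreeGroup α) : cl g⁻¹ = cl g := by
  rw [cl, cl, ← mul_inv_rev, norm_inv_eq, norm_inv_eq]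

theorem norm_zpow (g : FreeGroup α) : ∃ ρ : ℕ, norm g = 2 * ρ + cl g ∧
    ∀ i : ℤ, i ≠ 0 → norm (g ^ i) = 2 * ρ + i.natAbs * cl g := by
  obtain ⟨u, w, -, -, h⟩ := cyc g
  refine ⟨norm u, by simpa using h 1 one_ne_zero, fun i hi => ?_⟩
  obtain ⟨n, rfl | rfl⟩ := i.eq_nat_or_neg
  · simpa using h n (by omega)
  · simpa using h n (by omega)

theorem cl_le_norm (g : FreeGroup α) : cl g ≤ norm g := by
  obtain ⟨ρ, h, -⟩ := norm_zpow g
  omega

theorem mul_cl_le (g : FreeGroup α) (i : ℤ) : i.natAbs * cl g ≤ norm (g ^ i) := by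
  obtain ⟨ρ, -, h⟩ := norm_zpow g
  rcases eq_or_ne i 0 with rfl | hi
  · simp
  · rw [h i hi]
    omega

theorem le_norm_zpow {g : FreeGroup α} (h : g ≠ 1) (i : ℤ) : i.natAbs ≤ norm (g ^ i) :=
  (Nat.le_mul_of_pos_right _ (cl_pos h)).trans (mul_cl_le g i)

theorem norm_conj_le (h g : FreeGroup α) : norm (h * g * h⁻¹) ≤ norm g + 2 * norm h := by
  have a := FreeGroup.norm_mul_le (h * g) h⁻¹
  have b := FreeGroup.norm_mul_le h g
  rw [norm_inv_eq] at a
  omega

theorem cl_conj_le (h g : FreeGroup α) : cl (h * g * h⁻¹) ≤ cl g := by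
  obtain ⟨u, w, -, -, k⟩ := cyc g
  by_contra hn
  have a := mul_cl_le (h * g * h⁻¹) (2 * norm u + 2 * norm h + 1 : ℕ)
  have b := norm_conj_le h (g ^ (2 * norm u + 2 * norm h + 1))
  rw [zpow_natCast, conj_pow, Int.natAbs_natCast] at a
  rw [k _ (by omega)] at b
  have c := Nat.mul_le_mul_left (2 * norm u + 2 * norm h + 1) (Nat.succ_le_of_lt (not_le.mp hn))
  rw [Nat.mul_succ] at c
  omega

@[simp] theorem cl_conj (h g : FreeGroup α) : cl (h * g * h⁻¹) = cl g := by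
  refine le_antisymm (cl_conj_le h g) ?_
  have a := cl_conj_le h⁻¹ (h * g * h⁻¹)
  rwa [show h⁻¹ * (h * g * h⁻¹) * h⁻¹⁻¹ = g by group] at a

theorem cl_of_isConj {g g' : FreeGroup α} (h : IsConj g g') : cl g = cl g' := by
  obtain ⟨c, rfl⟩ := isConj_iff.mp h
  rw [cl_conj]

theorem cl_mul_comm (g h : FreeGroup α) : cl (g * h) = cl (h * g) := by
  rw [← cl_conj h, show h * (g * h) * h⁻¹ = h * g by group]

theorem cl_le_conj (h g : FreeGroup α) : cl g ≤ norm (h * g * h⁻¹) :=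
  cl_conj h g ▸ cl_le_norm _

theorem exists_conj_cl (g : FreeGroup α) : ∃ h, norm (h * g * h⁻¹) = cl g := by
  obtain ⟨u, w, h1, h2, -⟩ := cyc g
  exact ⟨u⁻¹, by rw [← h2, h1, show u⁻¹ * (u * w * u⁻¹) * u⁻¹⁻¹ = w by group]⟩

theorem cl_zpow (g : FreeGroup α) (i : ℤ) : cl (g ^ i) = i.natAbs * cl g := by
  obtain ⟨ρ, -, h⟩ := norm_zpow g
  rcases eq_or_ne i 0 with rfl | hi
  · simp
  · rw [cl, ← zpow_add, h i hi, h (i + i) (by omega),
      show (i + i).natAbs = i.natAbs + i.natAbs by omega, add_mul]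
    omega

theorem cl_pow (g : FreeGroup α) (i : ℕ) : cl (g ^ i) = i * cl g := by
  simpa using cl_zpow g i

/-- There are finitely many conjugacy classes of bounded cyclic length. -/
theorem cl_finite [Finite α] (R : ℕ) :
    {c : ConjClasses (FreeGroup α) | ∃ g, cl g ≤ R ∧ ConjClasses.mk g = c}.Finite := by
  refine ((ball_finite (α := α) R).image ConjClasses.mk).subset ?_
  rintro _ ⟨g, hg, rfl⟩
  obtain ⟨h, k⟩ := exists_conj_cl g
  exact ⟨h * g * h⁻¹, k.le.trans hg,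
    (ConjClasses.mk_eq_mk_iff_isConj.mpr (isConj_iff.mpr ⟨h, rfl⟩)).symm⟩

theorem cl_hom_le {β : Type*} [DecidableEq β] (f : FreeGroup α →* FreeGroup β) (L : ℕ)
    (hL : ∀ x, norm (f x) ≤ L * norm x) (g : FreeGroup α) : cl (f g) ≤ L * cl g := by
  obtain ⟨h, k⟩ := exists_conj_cl g
  have a := hL (h * g * h⁻¹)
  rw [k, f.map_mul, f.map_mul, f.map_inv] at a
  exact (cl_le_conj _ _).trans a

omit [DecidableEq α] in
/-- Finitely many homomorphisms send the basis into a ball. -/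
theorem hom_finite {β : Type*} [Finite α] [Finite β] [DecidableEq β] (R : ℕ) :
    {f : FreeGroup α →* FreeGroup β | ∀ a, norm (f (of a)) ≤ R}.Finite := by
  refine (Set.Finite.pi' fun _ : α => ball_finite (α := β) R).preimage
    (f := fun (f : FreeGroup α →* FreeGroup β) a => f (of a)) ?_
  exact fun f _ g _ h => FreeGroup.ext_hom f g (congrFun h)

end

namespace Cay

variable {U : Type} [Group U] {α : Type} [DecidableEq α] (θ : U →* FreeGroup α)

theorem tl_eq (g : U) : Q2T1.tl (Cay θ) g = cl (θ g) := by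
  have h : ∀ x : Cay θ, (cl (θ g) : ℝ) ≤ dist x (g • x) := fun x => by
    have k := cl_le_conj x.el⁻¹ (θ g)
    rw [inv_inv] at k
    rw [dist_smul_self]
    exact_mod_cast k
  refine le_antisymm ?_ (le_ciInf h)
  obtain ⟨u, hu⟩ := exists_conj_cl (θ g)
  refine (ciInf_le ⟨_, Set.forall_mem_range.mpr h⟩ (pt θ u⁻¹)).trans ?_
  rw [dist_smul_self, el_pt, inv_inv, hu]

theorem dist_sq (g : U) (x : Cay θ) :
    dist x (g • g • x) = dist x (g • x) + cl (θ g) := by
  obtain ⟨ρ, h1, h2⟩ := norm_zpow (x.el⁻¹ * θ g * x.el⁻¹⁻¹)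
  have h3 := h2 2 two_ne_zero
  rw [conj_zpow, cl_conj, zpow_two, inv_inv] at h3
  rw [cl_conj, inv_inv] at h1
  rw [← mul_smul, dist_smul_self, dist_smul_self, θ.map_mul, h1, h3]
  push_cast
  ring

omit [DecidableEq α] in
theorem ell_iff (g : U) : Q2T1.Ell (Cay θ) g ↔ θ g = 1 :=
  ⟨fun ⟨x, h⟩ => (smul_eq_iff θ g x).mp h, fun h => ⟨pt θ 1, (smul_eq_iff θ g _).mpr h⟩⟩

end Cay

end Pool.Agent.MP_3ce0a0_al.Q2T4M
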