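import Pool.Agent.MP_3ce0a0_al.Q2T4M.Cyc
import Pool.Agent.MP_3ce0a0_al.Q2T4A.Alg

/-! Projections to cyclic subgroups of a free group. -/

set_option autoImplicit false

namespace Pool.Agent.MP_3ce0a0_al.Q2T4M

open FreeGroup

variable {α : Type} [DecidableEq α]

theorem dn_zpow (c : FreeGroup α) (i j : ℤ) : dn (c ^ i) (c ^ j) = norm (c ^ (j - i)) := by
  rw [dn, ← zpow_neg, ← zpow_add, neg_add_eq_sub]

/-- `c ^ j` is a point of `⟨c⟩` that is nearest to `x`. -/
def Near (c x : FreeGroup α) (j : ℤ) : Prop := ∀ i : ℤ, dn x (c ^ j) ≤ dn x (c ^ i)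

theorem ex_near (c x : FreeGroup α) : ∃ j, Near c x j :=
  ⟨Function.argmin fun i : ℤ => dn x (c ^ i),
    fun i => Function.argmin_le (fun i : ℤ => dn x (c ^ i)) i⟩

theorem Near.shift {c x : FreeGroup α} {j : ℤ} (h : Near c x j) (k : ℤ) :
    Near c (c ^ k * x) (j + k) := by
  intro i
  have := h (i - k)
  rw [← dn_mul (c ^ k), ← dn_mul (c ^ k) x (c ^ (i - k)), ← zpow_add, ← zpow_add] at this
  rwa [add_comm j k, show i = k + (i - k) by ring]

theorem Near.almost {c x : FreeGroup α} {j : ℤ} (hc : c ≠ 1) (h : Near c x j) (i : ℤ) :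
    dn x (c ^ j) + dn (c ^ j) (c ^ i) ≤ dn x (c ^ i) + norm c := by
  obtain ⟨ρ, h1, h2⟩ := norm_zpow c
  have hp := cl_pos hc
  have key : ∀ k : ℤ, (k - j).natAbs = 1 → (i - k).natAbs + 1 = (i - j).natAbs → i ≠ k →
      dn x (c ^ j) + dn (c ^ j) (c ^ i) ≤ dn x (c ^ i) + norm c := by
    intro k e1 e2 e3
    have a := four x (c ^ k) (c ^ j) (c ^ i)
    have b := h k
    rw [dn_comm (c ^ k) (c ^ j)] at a
    rw [dn_zpow, dn_zpow, dn_zpow, h2 _ (by omega), h2 _ (by omega), h2 _ (by omega), e1,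
      ← e2, add_mul] at a
    rw [dn_zpow, h2 _ (by omega), ← e2, add_mul]
    omega
  have b := h i
  rcases lt_trichotomy i j with hij | rfl | hij
  · by_cases e : i = j - 1
    · rw [dn_zpow, show i - j = -1 by omega, zpow_neg_one, norm_inv_eq]
      omega
    · exact key (j - 1) (by omega) (by omega) e
  · simp
  · by_cases e : i = j + 1
    · rw [dn_zpow, show i - j = 1 by omega, zpow_one]
      omega
    · exact key (j + 1) (by omega) (by omega) e

theorem Near.le {c x : FreeGroup α} {j : ℤ} (hc : c ≠ 1) (h : Near c x j) (i : ℤ) :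
    dn x (c ^ j) + (i - j).natAbs ≤ dn x (c ^ i) + norm c := by
  have a := h.almost hc i
  have b := le_norm_zpow hc (i - j)
  rw [dn_zpow] at a
  omega

theorem Near.lip {c x y : FreeGroup α} {i j : ℤ} (hc : c ≠ 1) (h : Near c x j) (k : Near c y i) :
    (i - j).natAbs ≤ norm c + 2 * dn x y := by
  have a := h.le hc i
  have b := k j
  have d := dn_tri x y (c ^ i)
  have e := dn_tri y x (c ^ j)
  rw [dn_comm y x] at e
  omega

theorem Near.btw {c x y : FreeGroup α} {j : ℤ} (h : Near c x j) (k : Bt x y (c ^ j)) :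
    Near c y j := by
  intro i
  have a := h i
  have b := dn_tri x y (c ^ i)
  rw [Bt] at k
  omega

/-- The least exponent of a nearest point. -/
noncomputable def nc (c x : FreeGroup α) : ℤ := sInf {j | Near c x j}

theorem near_bdd {c : FreeGroup α} (hc : c ≠ 1) (x : FreeGroup α) : BddBelow {j | Near c x j} := by
  obtain ⟨j, hj⟩ := ex_near c x
  refine ⟨j - norm c, fun i hi => ?_⟩
  have := hj.lip hc hi
  rw [dn_self] at this
  omega

theorem nc_near {c : FreeGroup α} (hc : c ≠ 1) (x : FreeGroup α) : Near c x (nc c x) :=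
  Int.csInf_mem (ex_near c x) (near_bdd hc x)

theorem nc_le {c x : FreeGroup α} {j : ℤ} (hc : c ≠ 1) (h : Near c x j) : nc c x ≤ j :=
  csInf_le (near_bdd hc x) h

theorem nc_shift {c : FreeGroup α} (hc : c ≠ 1) (k : ℤ) (x : FreeGroup α) :
    nc c (c ^ k * x) = nc c x + k := by
  have a := nc_le hc ((nc_near hc x).shift k)
  have b := nc_le hc ((nc_near hc (c ^ k * x)).shift (-k))
  rw [zpow_neg, inv_mul_cancel_left] at b
  omega

theorem nc_lip {c : FreeGroup α} (hc : c ≠ 1) (x y : FreeGroup α) :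
    (nc c y - nc c x).natAbs ≤ norm c + 2 * dn x y := (nc_near hc x).lip hc (nc_near hc y)

/-- Isomorphisms almost preserve the projections. -/
theorem nc_iso {β : Type} [DecidableEq β] [Finite α] [Finite β] (f : FreeGroup α ≃* FreeGroup β)
    {c : FreeGroup α} (hc : c ≠ 1) : ∃ D : ℕ, ∀ x, (nc (f c) (f x) - nc c x).natAbs ≤ D := by
  obtain ⟨L, h1, h2⟩ := exists_bilip f
  have hc' : f c ≠ 1 := fun h => hc (f.map_eq_one_iff.mp h)
  refine ⟨2 * (L * L) + 2 * (L * norm c), fun x => ?_⟩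
  have a := nc_near hc x
  have b := nc_near hc' (f x)
  generalize nc c x = j at a
  generalize nc (f c) (f x) = i at b
  obtain ⟨m, m1, m2, m3⟩ := med x (c ^ j) (c ^ i)
  have e1 := a.almost hc i
  have e2 := qi_bt f L f.surjective h1 h2 m3
  have e3 : dn m (c ^ j) ≤ norm c := by
    rw [Bt] at m1 m2 m3
    rw [dn_comm (c ^ j) m] at m2
    omega
  have e4 := (h1 m (c ^ j)).trans (Nat.mul_le_mul_left L e3)
  have e5 := b j
  have e6 := le_norm_zpow hc' (i - j)
  have e7 := dn_tri (f x) (f m) (f c ^ j)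
  have e8 := dn_tri (f c ^ j) (f m) (f c ^ i)
  rw [map_zpow] at e2 e4
  rw [dn_zpow, dn_comm _ (f m)] at e8
  omega

theorem near_orbit {u d z : FreeGroup α} {K : ℕ} (i j : ℤ)
    (h : dn (u * d ^ i) z + dn z (u * d ^ j) ≤ dn (u * d ^ i) (u * d ^ j) + K) :
    ∃ t : ℤ, dn (u * d ^ t) z ≤ K + norm d := by
  wlog hij : i ≤ j generalizing i j
  · refine this j i ?_ (by omega)
    rw [dn_comm _ z, dn_comm z (u * d ^ i), dn_comm (u * d ^ j), add_comm]
    exact h
  obtain ⟨n, rfl⟩ := Int.le.dest hij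
  obtain ⟨m, m1, m2, m3⟩ := med (u * d ^ i) z (u * d ^ (i + n))
  obtain ⟨t, -, ht⟩ := cover (fun t : ℕ => u * d ^ (i + t)) (norm d) m n (fun t _ => by
    rw [dn_mul, dn_zpow, show i + ((t + 1 : ℕ) : ℤ) - (i + t) = 1 by omega, zpow_one]) (by
    simpa using m3)
  refine ⟨i + t, ?_⟩
  have a := dn_tri (u * d ^ (i + t)) m z
  rw [Bt] at m1 m2 m3
  rw [dn_comm z m] at m2
  rw [dn_comm] at ht
  omega

/-- The projection of a coset `u⟨d⟩` to `⟨c⟩` has uniformly bounded diameter. -/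
theorem nc_coset [Finite α] {c : FreeGroup α} (hc : c ≠ 1) (d : FreeGroup α) :
    ∃ C : ℕ, ∀ u, ¬ Commute c (u * d * u⁻¹) → ∀ i j : ℤ,
      (nc c (u * d ^ j) - nc c (u * d ^ i)).natAbs ≤ C := by
  obtain ⟨ρ, h1, h2⟩ := norm_zpow c
  refine ⟨max (norm c) (ball_finite (α := α) (3 * norm c + norm d)).toFinset.card,
    fun u hu i j => ?_⟩
  wlog hij : nc c (u * d ^ i) ≤ nc c (u * d ^ j) generalizing i j
  · have := this j i (by omega)
    omega
  have a := nc_near hc (u * d ^ i)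
  have b := nc_near hc (u * d ^ j)
  generalize nc c (u * d ^ i) = s at a hij
  generalize nc c (u * d ^ j) = r at b hij
  by_contra hn
  rw [not_le, max_lt_iff] at hn
  have e1 := a.almost hc r
  have e2 := b.almost hc s
  have e3 := four (u * d ^ i) (c ^ r) (u * d ^ j) (c ^ s)
  have e4 := le_norm_zpow hc (r - s)
  rw [← dn_zpow] at e4
  rw [dn_comm (c ^ r) (c ^ s)] at e2 e3
  rw [dn_comm (c ^ r)] at e3
  have key : ∀ m : ℤ, ∃ t : ℤ, m ∈ Finset.Icc s r →
      dn (u * d ^ t) (c ^ m) ≤ 3 * norm c + norm d := by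
    intro m
    by_cases hm : m ∈ Finset.Icc s r
    · rw [Finset.mem_Icc] at hm
      have e5 : dn (c ^ s) (c ^ m) + dn (c ^ m) (c ^ r) ≤ dn (c ^ s) (c ^ r) + norm c := by
        by_cases k1 : m = s
        · simp [k1]
        by_cases k2 : m = r
        · simp [k2]
        rw [dn_zpow, dn_zpow, dn_zpow, h2 _ (by omega), h2 _ (by omega), h2 _ (by omega),
          show (r - s).natAbs = (m - s).natAbs + (r - m).natAbs by omega, add_mul]
        omega
      have e6 := dn_tri (u * d ^ i) (c ^ s) (c ^ m)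
      have e7 := dn_tri (c ^ m) (c ^ r) (u * d ^ j)
      rw [dn_comm (c ^ r)] at e7
      obtain ⟨t, ht⟩ := near_orbit (u := u) (d := d) (z := c ^ m) (K := 3 * norm c) i j
        (by omega)
      exact ⟨t, fun _ => ht⟩
    · exact ⟨0, fun h => absurd h hm⟩
  choose t ht using key
  obtain ⟨m, -, m', -, hne, he⟩ := Finset.exists_ne_map_eq_of_card_lt_of_maps_to
    (s := Finset.Icc s r) (t := (ball_finite (α := α) (3 * norm c + norm d)).toFinset)
    (by rw [Int.card_Icc]; omega) (f := fun m => (u * d ^ t m)⁻¹ * c ^ m)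
    (fun m hm => (Set.Finite.mem_toFinset _).mpr (ht m hm))
  refine hu (Q2T4A.comm_of_zpow (n := m - m') (by omega) ?_)
  have e : c ^ (m - m') = (u * d * u⁻¹) ^ (t m - t m') := by
    have he' : (u * d ^ t m)⁻¹ * c ^ m = (u * d ^ t m')⁻¹ * c ^ m' := he
    rw [inv_mul_eq_iff_eq_mul] at he'
    rw [conj_zpow, zpow_sub, he']
    group
  rw [e]
  exact (Commute.refl _).zpow_left _

/-- The position on `⟨c⟩` of the projection of the coset `g⟨c⟩`. -/
noncomputable def pc (c g : FreeGroup α) : ℤ := sSup (Set.range fun i : ℤ => nc c (g * c ^ i))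

variable [Finite α]

theorem pc_spec {c g : FreeGroup α} (h : ¬ Commute g c) :
    (∃ i : ℤ, nc c (g * c ^ i) = pc c g) ∧ ∀ i : ℤ, nc c (g * c ^ i) ≤ pc c g := by
  have hc : c ≠ 1 := fun k => h (k ▸ Commute.one_right g)
  obtain ⟨C, hC⟩ := nc_coset hc c
  have hb : BddAbove (Set.range fun i : ℤ => nc c (g * c ^ i)) := by
    refine ⟨nc c (g * c ^ (0 : ℤ)) + C, ?_⟩
    rintro _ ⟨i, rfl⟩
    have := hC g (fun k => h (Q2T4A.comm_of_conj hc k)) 0 i
    change nc c (g * c ^ i) ≤ _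
    omega
  exact ⟨Int.csSup_mem (Set.range_nonempty _) hb, fun i => le_csSup hb ⟨i, rfl⟩⟩

omit [DecidableEq α] [Finite α] in
theorem not_comm_shift {c g : FreeGroup α} (h : ¬ Commute g c) (j i : ℤ) :
    ¬ Commute (c ^ j * g * c ^ i) c := by
  intro k
  have a := ((((Commute.refl c).zpow_left (-j)).mul_left k).mul_left
    ((Commute.refl c).zpow_left (-i)))
  exact h (by rwa [show c ^ (-j) * (c ^ j * g * c ^ i) * c ^ (-i) = g by group] at a)

/-- (P1) -/
theorem pc_shift {c g : FreeGroup α} (h : ¬ Commute g c) (j i : ℤ) :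
    pc c (c ^ j * g * c ^ i) = pc c g + j := by
  have hc : c ≠ 1 := fun k => h (k ▸ Commute.one_right g)
  obtain ⟨⟨a, ha⟩, ha'⟩ := pc_spec h
  obtain ⟨⟨b, hb⟩, hb'⟩ := pc_spec (not_comm_shift h j i)
  have e1 := ha' (i + b)
  have e2 := hb' (a - i)
  rw [show c ^ j * g * c ^ i * c ^ b = c ^ j * (g * c ^ (i + b)) by group, nc_shift hc] at hb
  rw [show c ^ j * g * c ^ i * c ^ (a - i) = c ^ j * (g * c ^ a) by group, nc_shift hc] at e2
  omega

/-- (P2) -/
theorem pc_iso {β : Type} [DecidableEq β] [Finite β] (f : FreeGroup α ≃* FreeGroup β)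
    (c : FreeGroup α) : ∃ D : ℕ, ∀ g, ¬ Commute g c → |pc (f c) (f g) - pc c g| ≤ D := by
  by_cases hc : c = 1
  · exact ⟨0, fun g h => absurd (hc ▸ Commute.one_right g) h⟩
  obtain ⟨D, hD⟩ := nc_iso f hc
  refine ⟨D, fun g h => ?_⟩
  obtain ⟨⟨a, ha⟩, ha'⟩ := pc_spec h
  obtain ⟨⟨b, hb⟩, hb'⟩ := pc_spec (c := f c) (g := f g) fun k => h (by simpa using k.map f.symm)
  have e1 := hD (g * c ^ a)
  have e2 := hD (g * c ^ b)
  have e3 := ha' b
  have e4 := hb' a
  rw [f.map_mul, map_zpow] at e1 e2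
  rw [abs_le]
  omega

/-- (P3) If the edges of the Cayley tree that leave `S` start near `u⟨d⟩` and `⟨c⟩` misses `S`,
then all cosets `g⟨c⟩` inside `S` have almost the same position. -/
theorem pc_cut (c d : FreeGroup α) (D : ℕ) : ∃ C : ℕ, ∀ (u : FreeGroup α) (S : Set (FreeGroup α)),
    ¬ Commute c (u * d * u⁻¹) → (∀ M : ℤ, c ^ M ∉ S) →
    (∀ y ∈ S, ∀ z, z ∉ S → dn y z = 1 → ∃ k : ℤ, dn (u * d ^ k) y ≤ D) →
    ∀ g, ¬ Commute g c → (∀ i : ℤ, g * c ^ i ∈ S) → |pc c g - nc c u| ≤ C := by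
  by_cases hc : c = 1
  · exact ⟨0, fun u _ h => absurd (hc ▸ Commute.one_left _) h⟩
  obtain ⟨C, hC⟩ := nc_coset hc d
  refine ⟨C + 2 * norm c + 2 * D, fun u S hu h1 h2 g hg h3 => ?_⟩
  obtain ⟨⟨a, ha⟩, -⟩ := pc_spec hg
  have hn := nc_near hc (g * c ^ a)
  rw [ha] at hn
  obtain ⟨v, v0, vn, vs, vb, -⟩ := geo (g * c ^ a) (c ^ pc c g)
  have hex : ∃ i, v i ∈ S ∧ v (i + 1) ∉ S := by
    by_contra k
    have : ∀ i, v i ∈ S := fun i => by
      induction i with
      | zero => exact v0 ▸ h3 a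
      | succ i ih => exact by_contra fun k' => k ⟨i, ih, k'⟩
    exact h1 _ (vn ▸ this _)
  obtain ⟨i, i1, i2⟩ := hex
  have e1 : dn (v i) (v (i + 1)) = 1 := by
    have := vs i
    have : dn (v i) (v (i + 1)) ≠ 0 := fun k => i2 (dn_eq_zero.mp k ▸ i1)
    omega
  obtain ⟨k, hk⟩ := h2 _ i1 _ i2 e1
  have e2 := (nc_near hc (u * d ^ k)).lip hc (hn.btw (vb i))
  have e3 := hC u hu 0 k
  rw [zpow_zero, mul_one] at e3
  rw [abs_le]
  omega

/-- (P3), for two cosets. -/
theorem pc_cut' (c d : FreeGroup α) (D : ℕ) : ∃ C : ℕ, ∀ (u : FreeGroup α)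
    (S : Set (FreeGroup α)), ¬ Commute c (u * d * u⁻¹) → (∀ M : ℤ, c ^ M ∉ S) →
    (∀ y ∈ S, ∀ z, z ∉ S → dn y z = 1 → ∃ k : ℤ, dn (u * d ^ k) y ≤ D) →
    ∀ g g', ¬ Commute g c → ¬ Commute g' c → (∀ i : ℤ, g * c ^ i ∈ S) →
      (∀ i : ℤ, g' * c ^ i ∈ S) → |pc c g - pc c g'| ≤ C := by
  obtain ⟨C, hC⟩ := pc_cut c d D
  refine ⟨2 * C, fun u S hu h1 h2 g g' a a' b b' => ?_⟩
  have e1 := hC u S hu h1 h2 g a b
  have e2 := hC u S hu h1 h2 g' a' b'
  rw [abs_le] at *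
  omega

end Pool.Agent.MP_3ce0a0_al.Q2T4M
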