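import Pool.Agent.MP_3ce0a0_al.Q2T4M.Cay
import Pool.Agent.MP_3ce0a0_al.Q2T1.Defs

/-! The Cayley tree of a free group as a simplicial tree, with an action through a
homomorphism. -/

set_option autoImplicit false

namespace Pool.Agent.MP_3ce0a0_al.Q2T4M

open Q2T1

variable {U : Type} [Group U] {α : Type}

/-- The vertex set of the Cayley tree of `FreeGroup α`; `U` acts by left multiplication
through `θ`. -/
def Cay (_θ : U →* FreeGroup α) : Type := FreeGroup α

namespace Cay

variable (θ : U →* FreeGroup α)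

/-- The vertex of a group element. -/
def pt (x : FreeGroup α) : Cay θ := x

/-- The group element of a vertex. -/
def el {θ : U →* FreeGroup α} (x : Cay θ) : FreeGroup α := x

@[simp] theorem el_pt (x : FreeGroup α) : (pt θ x).el = x := rfl

@[simp] theorem pt_el (x : Cay θ) : pt θ x.el = x := rfl

theorem el_inj {x y : Cay θ} : x.el = y.el ↔ x = y := Iff.rfl

instance : Nonempty (Cay θ) := ⟨pt θ 1⟩

instance : MulAction U (Cay θ) where
  smul g x := pt θ (θ g * x.el)
  one_smul x := by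
    change θ 1 * x.el = x.el
    rw [map_one, one_mul]
  mul_smul g h x := by
    change θ (g * h) * x.el = θ g * (θ h * x.el)
    rw [map_mul, mul_assoc]

@[simp] theorem el_smul (g : U) (x : Cay θ) : (g • x).el = θ g * x.el := rfl

theorem smul_pt (g : U) (x : FreeGroup α) : g • pt θ x = pt θ (θ g * x) := rfl

theorem smul_eq_iff (g : U) (x : Cay θ) : g • x = x ↔ θ g = 1 := by
  rw [← el_inj, el_smul, mul_eq_right]

variable [DecidableEq α]

noncomputable instance : MetricSpace (Cay θ) where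
  dist x y := (dn x.el y.el : ℝ)
  dist_self x := by simp
  dist_comm x y := by rw [dn_comm]
  dist_triangle x y z := by exact_mod_cast dn_tri x.el y.el z.el
  eq_of_dist_eq_zero h := dn_eq_zero.mp (by exact_mod_cast h)

theorem dist_eq (x y : Cay θ) : dist x y = (dn x.el y.el : ℝ) := rfl

theorem dist_pt (x y : FreeGroup α) : dist (pt θ x) (pt θ y) = (dn x y : ℝ) := rfl

theorem dist_smul_self (g : U) (x : Cay θ) :
    dist x (g • x) = (FreeGroup.norm (x.el⁻¹ * θ g * x.el) : ℝ) := by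
  rw [dist_eq, el_smul, dn, mul_assoc]

theorem dist_one_smul (g : U) : dist (pt θ 1) (g • pt θ 1) = (FreeGroup.norm (θ g) : ℝ) := by
  rw [dist_smul_self, el_pt, inv_one, one_mul, mul_one]

theorem btw_iff (x m y : Cay θ) : Q2T1.Btw x m y ↔ Bt x.el m.el y.el := by
  rw [Q2T1.Btw, Bt, dist_eq, dist_eq, dist_eq]
  exact_mod_cast Iff.rfl

instance : IsIsometricSMul U (Cay θ) :=
  ⟨fun g => Isometry.of_dist_eq fun x y => by rw [dist_eq, dist_eq, el_smul, el_smul, dn_mul]⟩

instance : IsSimp (Cay θ) where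
  four x y z w := by
    simp only [dist_eq]
    exact_mod_cast four x.el y.el z.el w.el
  ex_med x y z := by
    obtain ⟨m, h1, h2, h3⟩ := med x.el y.el z.el
    exact ⟨pt θ m, (btw_iff θ _ _ _).mpr h1, (btw_iff θ _ _ _).mpr h2, (btw_iff θ _ _ _).mpr h3⟩
  int x y := ⟨_, rfl⟩
  geo x y h := by
    obtain ⟨z, h1, h2⟩ := geo_pt x.el y.el 1
      (Nat.one_le_iff_ne_zero.mpr fun h0 => h (dn_eq_zero.mp h0))
    exact ⟨pt θ z, by rw [dist_eq, el_pt, h1, Nat.cast_one], (btw_iff θ _ _ _).mpr h2⟩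

theorem noInv (H : Subgroup U) : NoInv (Cay θ) H := by
  intro g _ x h1 h2
  rw [← mul_smul, smul_eq_iff, map_mul, ← pow_two, pow_eq_one_iff_left two_ne_zero,
    ← smul_eq_iff θ g x] at h2
  rw [h2, dist_self] at h1
  exact zero_ne_one h1

theorem dist_eq_one (x y : Cay θ) :
    dist x y = 1 ↔ ∃ a, y.el = x.el * FreeGroup.of a ∨ y.el = x.el * (FreeGroup.of a)⁻¹ := by
  rw [dist_eq, Nat.cast_eq_one, dn, norm_eq_one]
  simp only [inv_mul_eq_iff_eq_mul]

theorem ball_finite [Finite α] (x : Cay θ) (R : ℝ) : {y : Cay θ | dist x y ≤ R}.Finite := by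
  refine ((Q2T4M.ball_finite (α := α) ⌈R⌉₊).image fun w => pt θ (x.el * w)).subset ?_
  intro y hy
  refine ⟨x.el⁻¹ * y.el, ?_, mul_inv_cancel_left x.el y.el⟩
  have h : ((FreeGroup.norm (x.el⁻¹ * y.el) : ℕ) : ℝ) ≤ (⌈R⌉₊ : ℕ) := le_trans hy (Nat.le_ceil R)
  exact_mod_cast h

/-- A bi-Lipschitz surjection of Cayley trees almost preserves betweenness. -/
theorem qi_btw {V : Type} [Group V] {β : Type} [DecidableEq β] (θ' : V →* FreeGroup β)
    (f : Cay θ → Cay θ') (L : ℕ) (hs : Function.Surjective f)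
    (h1 : ∀ x y, dist (f x) (f y) ≤ L * dist x y) (h2 : ∀ x y, dist x y ≤ L * dist (f x) (f y))
    {x m y : Cay θ} (h : Q2T1.Btw x m y) :
    dist (f x) (f m) + dist (f m) (f y) ≤ dist (f x) (f y) + 2 * (L * L) := by
  have h3 := qi_bt (fun w => (f (pt θ w)).el) L hs
    (fun a b => Nat.cast_le (α := ℝ).mp (by rw [Nat.cast_mul]; exact h1 (pt θ a) (pt θ b)))
    (fun a b => Nat.cast_le (α := ℝ).mp (by rw [Nat.cast_mul]; exact h2 (pt θ a) (pt θ b)))
    ((btw_iff θ _ _ _).mp h)
  simp only [dist_eq]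
  exact_mod_cast h3

/-- The map `y ↦ u * f y` (`f` an automorphism) is a bi-Lipschitz bijection that almost
preserves betweenness, with constants that depend on `f` only. -/
theorem aff [Finite α] (f : MulAut (FreeGroup α)) : ∃ L : ℕ, ∀ u x y : FreeGroup α,
    dn (u * f x) (u * f y) ≤ L * dn x y ∧ dn x y ≤ L * dn (u * f x) (u * f y) ∧
    ∀ m, Bt x m y → dn (u * f x) (u * f m) + dn (u * f m) (u * f y) ≤
      dn (u * f x) (u * f y) + 2 * (L * L) := by
  obtain ⟨L, h1, h2⟩ := exists_bilip f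
  refine ⟨L, fun u x y => ?_⟩
  simp only [dn_mul]
  exact ⟨h1 x y, h2 x y, fun m hm => qi_bt f L f.surjective h1 h2 hm⟩

end Cay

end Pool.Agent.MP_3ce0a0_al.Q2T4M
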